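import Mathlib
import Pool.Agent.helper30.FZ.Defs
import Pool.Agent.helper30.FZ.Main

set_option autoImplicit false

namespace Pool.Agent.helper95.Reserve.ComponentDichotomy

open Pool.Agent.FZ

/-- Every point of the hopping spectrum outside the periodic part lies in a bounded connected
component of the complement of the periodic part which is entirely contained in the spectrum. -/
theorem result : ∀ z ∈ hoppingSpectrum, z ∉ periodicPart →
    connectedComponentIn periodicPartᶜ z ⊆ hoppingSpectrum ∧
      Bornology.IsBounded (connectedComponentIn periodicPartᶜ z) :=
  fun _ hz hz' => dichotomy hz hz'

end Pool.Agent.helper95.Reserve.ComponentDichotomy
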