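import Pool.Agent.helper95.T5.Final

/-!
MP_16912e_nt, partial result (`p = 5`, imaginary quadratic fields, the Cohen-Lenstra constant).

For `N ^ (2 / 5) ≤ Y ≤ N ^ (1 / 2 - δ)`, summed over the negative fundamental discriminants `D` with
`|D| ≤ N`, the number of classes of order exactly 5 in `Cl(ℚ(√D))` which contain an integral ideal of
norm at most `Y` is asymptotic to `36 / π ^ 3 * Y * √N`.

This is the value given by the Cohen-Lenstra average (one class of order 5 per field) and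
equidistribution of the corresponding CM points.
-/

set_option autoImplicit false

open NumberField Classical
open scoped nonZeroDivisors

namespace Pool.Agent.helper95.Reserve.FiveTorsionIdeals

/-- fundamental discriminants (the discriminants of the quadratic fields) -/
def IsFundamental (D : ℤ) : Prop :=
  (D % 4 = 1 ∧ D ≠ 1 ∧ Squarefree D) ∨ (∃ m : ℤ, D = 4 * m ∧ (m % 4 = 2 ∨ m % 4 = 3) ∧ Squarefree m)

/-- the classes of order exactly 5 which contain a nonzero integral ideal of norm at most `Y` -/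
def ClassesUpTo (K : Type) [Field K] [NumberField K] (Y : ℝ) : Set (ClassGroup (𝓞 K)) :=
  {c | c ^ 5 = 1 ∧ c ≠ 1 ∧ ∃ a : (Ideal (𝓞 K))⁰, ClassGroup.mk0 a = c ∧
    (Ideal.absNorm (a : Ideal (𝓞 K)) : ℝ) ≤ Y}

private lemma filter_eq (s : Finset ℤ) :
    (@Finset.filter ℤ Pool.Agent.helper47.RA.IsFund (fun _ => Classical.propDecidable _) s) =
      s.filter IsFundamental := by
  ext D
  rw [Finset.mem_filter, Finset.mem_filter]
  rfl

theorem result :
    ∀ h : ℤ → ℝ → ℕ,
      (∀ (K : Type) [Field K] [NumberField K], Module.finrank ℚ K = 2 → ∀ Y : ℝ,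
        h (NumberField.discr K) Y = (ClassesUpTo K Y).ncard) →
      ∀ δ : ℝ, 0 < δ → ∀ ε : ℝ, 0 < ε → ∃ N₀ : ℝ, ∀ N Y : ℝ, N₀ ≤ N → N ^ (2 / 5 : ℝ) ≤ Y →
        Y ≤ N ^ (1 / 2 - δ) →
        |∑ D ∈ (Finset.Icc (-⌊N⌋) (-1)).filter IsFundamental,
            (h D Y : ℝ) - 36 / Real.pi ^ 3 * (Y * √N)| ≤ ε * (Y * √N) := by
  intro h hh δ hδ ε hε
  obtain ⟨N₀, hN₀⟩ := Pool.Agent.T5.main2 h (fun K _ _ h1 Y => hh K h1 Y) δ hδ ε hε
  refine ⟨N₀, fun N Y h1 h2 h3 => ?_⟩
  have h4 := hN₀ N Y h1 h2 h3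
  rw [filter_eq] at h4
  exact h4

end Pool.Agent.helper95.Reserve.FiveTorsionIdeals
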