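import Pool.Agent.helper28.LT.Final

/-!
MP_16912e_nt, partial result (`p = 5`, imaginary quadratic fields, lower bound).

For every `ε > 0` and all large `N`,

  `∑_{-N < D < 0, D fundamental} (#Cl(ℚ(√D))[5] - 1) ≥ N ^ (1 - ε)`.

Here `f D` stands for `#Cl(ℚ(√D))[5]`, exactly as in the frozen statement.
-/

set_option autoImplicit false

open Filter Topology Classical

namespace Pool.Agent.Results.MP_16912e_nt.FiveTorsionLower

theorem result :
    ∀ f : ℤ → ℕ,
      (∀ (K : Type) [Field K] [NumberField K], Module.finrank ℚ K = 2 →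
        f (NumberField.discr K) =
          Nat.card {x : ClassGroup (NumberField.RingOfIntegers K) // x ^ 5 = 1}) →
      ∀ ε : ℝ, 0 < ε → ∀ᶠ N : ℕ in atTop,
        (N : ℝ) ^ (1 - ε) ≤
          ∑ D ∈ (Finset.Ioo (-(N : ℤ)) (0 : ℤ)).filter (fun D : ℤ =>
              (D % 4 = 1 ∧ D ≠ 1 ∧ Squarefree D) ∨
              (∃ m : ℤ, D = 4 * m ∧ (m % 4 = 2 ∨ m % 4 = 3) ∧ Squarefree m)),
            ((f D : ℝ) - 1) := by
  intro f hf ε hε
  have h := Pool.Agent.helper28.LT.lower_bound f (fun K _ _ h1 => hf K h1) ε hε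
  filter_upwards [h] with N hN
  refine hN.trans (le_of_eq ?_)
  refine Finset.sum_congr ?_ fun _ _ => rfl
  ext D
  rw [Finset.mem_filter, Finset.mem_filter]
  rfl

end Pool.Agent.Results.MP_16912e_nt.FiveTorsionLower
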