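import Pool.Agent.helper95.LC.Graph

/-! # The graph of a linear complex of `PG(3, p ^ h)` for almost all primes `p` -/

namespace Pool.Agent.helper95.Reserve.AlmostAllPrimes

open scoped LinearAlgebra.Projectivization
open Pool.Agent.helper95.LC

/-- (1) Let `l` be an odd prime, `p` a prime different from `l` and `h` a divisor of the order of
`p` modulo `l`. For every field `K` with `p ^ h` elements and every nondegenerate alternating form
`f` on `K ^ 4` the independence number of the graph of the linear complex is at least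
`|K| ^ (3 / 2) / (7 l) ^ (3 (l - 1) h / ord_l p)`.
(2) For every `h` and every `δ > 0` there are a modulus `M`, a constant `c > 0` and at most
`δ φ(M)` residue classes of units modulo `M` such that for every prime `p` outside of these classes
the independence number is at least `c |K| ^ (3 / 2)`. -/
theorem result :
    (∀ l p h : ℕ, l.Prime → l ≠ 2 → p.Prime → p ≠ l → 1 ≤ h → h ∣ orderOf (p : ZMod l) →
      ∀ (K : Type*) [Field K] [Finite K] (f : LinearMap.BilinForm K (Fin 4 → K)),
        f.IsAlt → f.Nondegenerate → Nat.card K = p ^ h →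
        (Nat.card K : ℝ) ^ (3 / 2 : ℝ) ≤
          (7 * l : ℝ) ^ (3 * ((l - 1) * h / orderOf (p : ZMod l))) *
            (complexGraph f).indepNum) ∧
    (∀ h : ℕ, 1 ≤ h → ∀ δ : ℝ, 0 < δ → ∃ M : ℕ, 0 < M ∧ ∃ c : ℝ, 0 < c ∧
      ∃ B : Set (ZMod M)ˣ, (Nat.card B : ℝ) ≤ δ * M.totient ∧
        ∀ p : ℕ, p.Prime → (∀ u ∈ B, (u : ZMod M) ≠ (p : ZMod M)) →
          ∀ (K : Type*) [Field K] [Finite K] (f : LinearMap.BilinForm K (Fin 4 → K)),
            f.IsAlt → f.Nondegenerate → Nat.card K = p ^ h →
            c * (Nat.card K : ℝ) ^ (3 / 2 : ℝ) ≤ (complexGraph f).indepNum) := by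
  refine ⟨?_, ?_⟩
  · intro l p h hl hl2 hp hpl hh hdvd K _ _ f ha hn hK
    obtain ⟨k, hk, hB⟩ := prime_bound hl hl2 hp hpl hh hdvd K hK
    have h1 := le_indepNum f ha hn hB
    refine hk.trans ?_
    apply mul_le_mul_of_nonneg_left _ (by positivity)
    exact_mod_cast h1
  · intro h hh δ hδ
    have hq0 : (0 : ℝ) ≤ 1 - 1 / h := by
      have : (1 : ℝ) ≤ h := by exact_mod_cast hh
      rw [sub_nonneg, div_le_one (by linarith)]
      exact this
    have hq1 : (1 : ℝ) - 1 / h < 1 := by
      have : (0 : ℝ) < h := by exact_mod_cast hh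
      have h1 : (0 : ℝ) < 1 / h := by positivity
      linarith
    obtain ⟨r, hr⟩ := exists_pow_lt_of_lt_one hδ hq1
    obtain ⟨M, hM0, hM2, hM⟩ := exists_modulus hh r
    have : NeZero M := ⟨hM0.ne'⟩
    obtain ⟨c₁, hc₁, hc⟩ := cyc_bound M hM2
    -- the primes that divide the modulus
    set c₂ : ℝ := (((M : ℝ) ^ h) ^ (3 / 2 : ℝ))⁻¹ with hc₂
    have hMpos : (0 : ℝ) < M := by exact_mod_cast hM0
    have hc₂0 : 0 < c₂ := by positivity
    refine ⟨M, hM0, min c₁ c₂, lt_min hc₁ hc₂0, {u | ¬ h ∣ orderOf u}, ?_, ?_⟩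
    · refine hM.trans ?_
      exact mul_le_mul_of_nonneg_right hr.le (by positivity)
    · intro p hp hpB K _ _ f ha hn hK
      have hKpos : (0 : ℝ) ≤ (Nat.card K : ℝ) ^ (3 / 2 : ℝ) := by positivity
      by_cases hpM : p ∣ M
      · have h1 : 1 ≤ (complexGraph f).indepNum := le_indepNum f ha hn (big_one K)
        have h2 : (1 : ℝ) ≤ (complexGraph f).indepNum := by exact_mod_cast h1
        refine le_trans ?_ h2
        have h3 : (p : ℝ) ≤ M := by exact_mod_cast Nat.le_of_dvd hM0 hpM
        have h4 : (Nat.card K : ℝ) ^ (3 / 2 : ℝ) ≤ ((M : ℝ) ^ h) ^ (3 / 2 : ℝ) := by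
          apply Real.rpow_le_rpow (by positivity) _ (by norm_num)
          rw [hK]
          push_cast
          exact pow_le_pow_left₀ (by positivity) h3 h
        calc min c₁ c₂ * (Nat.card K : ℝ) ^ (3 / 2 : ℝ)
            ≤ c₂ * ((M : ℝ) ^ h) ^ (3 / 2 : ℝ) :=
              mul_le_mul (min_le_right _ _) h4 hKpos hc₂0.le
          _ = 1 := inv_mul_cancel₀ (by positivity)
      · have hcop : p.Coprime M := hp.coprime_iff_not_dvd.2 hpM
        have hdvd : h ∣ orderOf (p : ZMod M) := by
          by_contra hnot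
          apply hpB (ZMod.unitOfCoprime p hcop)
          · intro h5
            apply hnot
            rw [← orderOf_injective (Units.coeHom (ZMod M)) Units.coeHom_injective,
              Units.coeHom_apply, ZMod.coe_unitOfCoprime] at h5
            exact h5
          · exact ZMod.coe_unitOfCoprime p hcop
        obtain ⟨k, hk, hB⟩ := hc p hp hpM h hh hdvd K hK
        have h1 := le_indepNum f ha hn hB
        calc min c₁ c₂ * (Nat.card K : ℝ) ^ (3 / 2 : ℝ)
            ≤ c₁ * (Nat.card K : ℝ) ^ (3 / 2 : ℝ) :=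
              mul_le_mul_of_nonneg_right (min_le_left _ _) hKpos
          _ ≤ k := hk
          _ ≤ _ := by exact_mod_cast h1

end Pool.Agent.helper95.Reserve.AlmostAllPrimes
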