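import Mathlib
import Pool.Agent.helper95.PY2.All

set_option autoImplicit false

namespace Pool.Agent.helper95.Reserve.ArbitraryPartner

/-- Power saving for double character sums `∑ χ(z + w)` when `A` lies in a Moebius image of an interval of length
`N` (for instance in an arithmetic progression), `B` is an arbitrary set and `N |B| ≥ p^(1/2+ε)`. -/
theorem result :
    ∀ ε : ℝ, 0 < ε → ∃ δ : ℝ, 0 < δ ∧ ∃ p₀ : ℕ, ∀ (p : ℕ) [Fact p.Prime], p₀ < p →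
      ∀ (A B : Finset (ZMod p)) (a b c d : ZMod p) (N : ℕ), a * d - b * c ≠ 0 → N < p →
        (∀ z ∈ A, ∃ n : ℕ, n < N ∧ c * (n : ZMod p) + d ≠ 0 ∧
          z = (a * (n : ZMod p) + b) / (c * (n : ZMod p) + d)) →
        (p : ℝ) ^ ε ≤ N → (p : ℝ) ^ ε ≤ B.card → (p : ℝ) ^ (1 / 2 + ε) ≤ N * B.card →
        ∀ χ : MulChar (ZMod p) ℂ, χ ≠ 1 → ∀ β : ZMod p → ℂ, (∀ w, ‖β w‖ ≤ 1) →
          ∑ z ∈ A, ‖∑ w ∈ B, β w * χ (z + w)‖ ≤ (p : ℝ) ^ (-δ) * N * B.card := by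
  intro ε hε
  obtain ⟨δ, hδ, p₀, h⟩ := Pool.Agent.PY2.p_FINM ε hε
  refine ⟨δ, hδ, p₀, ?_⟩
  intro p hp hpp A B a b c d N h1 h2 h3 h4 h5 h6 χ hχ β hβ
  exact h p hpp A B a b c d N h1 h2 h3 h4 h5 h6 χ hχ β hβ

end Pool.Agent.helper95.Reserve.ArbitraryPartner
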