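import Mathlib
import Pool.Agent.helper46.PY.M

set_option autoImplicit false

namespace Pool.Agent.helper95.Reserve.ProgressionBarrier

open Pointwise

/-- The arithmetic progression `{n v : |n| ≤ T}` in `ZMod p`. -/
noncomputable def ap {p : ℕ} (v : ZMod p) (T : ℕ) : Finset (ZMod p) :=
  (Finset.Icc (-(T : ℤ)) T).image fun n : ℤ => (n : ZMod p) * v

/-- The number of `(x, x', b₁, b₂, b₃, b₄) ∈ P² × B⁴` with `x - x' = b₁ - b₂ = b₃ - b₄`. -/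
def mixed {p : ℕ} (P B : Finset (ZMod p)) : ℕ :=
  (((P ×ˢ P) ×ˢ ((B ×ˢ B) ×ˢ (B ×ˢ B))).filter fun w =>
    w.1.1 - w.1.2 = w.2.1.1 - w.2.1.2 ∧ w.1.1 - w.1.2 = w.2.2.1 - w.2.2.2).card

/-- Power saving for double character sums `∑ χ(a + b)` when `A` is essentially closed under the
translations by an arithmetic progression of any power length, and `B` is arbitrary, of size below
`√p`. -/
theorem result :
    ∀ ε : ℝ, 0 < ε → ∃ p₀ : ℕ, ∃ δ : ℝ, 0 < δ ∧ ∀ p : ℕ, p.Prime → p₀ < p →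
      ∀ (A P B : Finset (ZMod p)) (v : ZMod p) (T : ℕ) (m : ℝ), v ≠ 0 →
        (p : ℝ) ^ ε ≤ T → T ^ 2 ≤ p → A + ap v T ⊆ P →
        (P.card : ℝ) ≤ (p : ℝ) ^ δ * A.card →
        (mixed P B : ℝ) ≤ m * P.card * (B.card : ℝ) ^ 2 →
        (P.card : ℝ) ≤ Real.sqrt p * m →
        (B.card : ℝ) * min (P.card : ℝ) (B.card : ℝ) ≤ Real.sqrt p * m →
        (p : ℝ) ^ (1 + ε) * m ≤ T * P.card * (B.card : ℝ) ^ 2 →
        ∀ χ : MulChar (ZMod p) ℂ, χ ≠ 1 → ∀ β : ZMod p → ℂ, (∀ b, ‖β b‖ ≤ 1) →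
          ∑ a ∈ A, ‖∑ b ∈ B, β b * χ (a + b)‖ ≤ (p : ℝ) ^ (-δ) * A.card * B.card := by
  intro ε hε
  exact Pool.Agent.helper46.PY.main3 ε hε

end Pool.Agent.helper95.Reserve.ProgressionBarrier
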